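import Pool.Agent.H.MP_f50dde_an.A

namespace Pool.Agent.H.MP_cd1425_an

open Set Filter Topology Metric Finset
open scoped InnerProductSpace ComplexConjugate

section
variable {H : Type*} [NormedAddCommGroup H] [InnerProductSpace ℂ H] [CompleteSpace H]

lemma wie {T : H →L[ℂ] H} (hT : T ∈ unitary (H →L[ℂ] H)) {x : H}
    (hp : ∀ w : ℂ, ‖w‖ = 1 → ∀ v, T v = w • v → ⟪v, x⟫_ℂ = 0) {δ : ℝ} (hδ : 0 < δ) :
    ∃ M : ℕ, 0 < M ∧ ∀ y, ∑ n ∈ range M, ‖⟪y, (T ^ n) x⟫_ℂ‖ ^ 2 ≤ ‖y‖ * (‖y‖ * (M * δ) * ‖x‖) := by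
  have iso : ∀ w : ℂ, ‖w‖ = 1 → ∀ n v, ‖((conj w • T) ^ n) v‖ = ‖v‖ := fun w hw n v => by
    rw [smul_pow, smul_apply, norm_smul, ContinuousLinearMap.norm_map_of_mem_unitary (pow_mem hT n)]
    simp [hw]
  have key : ∀ ε > 0, ∀ᶠ M : ℕ in atTop, ∀ w ∈ sphere (0 : ℂ) 1,
      ‖∑ n ∈ range M, ((conj w • T) ^ n) x‖ ≤ M * ε := fun ε hε => by
    refine (isCompact_sphere (0 : ℂ) 1).induction_on (p := fun s => ∀ᶠ M : ℕ in atTop, ∀ w ∈ s,
      ‖∑ n ∈ range M, ((conj w • T) ^ n) x‖ ≤ M * ε) (by simp)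
      (fun s t h ht => ht.mono fun M hM w hw => hM w (h hw))
      (fun s t hs ht => (hs.and ht).mono fun M hM w hw => hw.elim (hM.1 w) (hM.2 w)) fun w hw => ?_
    rw [mem_sphere_zero_iff_norm] at hw
    have t := (conj w • T).tendsto_birkhoffAverage_orthogonalProjection
      (ContinuousLinearMap.opNorm_le_bound _ zero_le_one fun v => by simpa using (iso w hw 1 v).le) x
    rw [Submodule.orthogonalProjectionOnto_eq_zero_iff.2 fun z hz => hp w hw z (by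
      have : conj w • T z = z := hz
      rw [← congrArg (w • ·) this, smul_smul, Complex.mul_conj, Complex.normSq_eq_norm_sq, hw]
      simp)] at t
    obtain ⟨N, hN, N0⟩ := ((t.norm.eventually (gt_mem_nhds (show _ < ε / 2 by simpa))).and
      (eventually_gt_atTop 0)).exists
    have c : Continuous fun w : ℂ => ‖∑ n ∈ range N, ((conj w • T) ^ n) x‖ / N := by fun_prop
    refine ⟨_, inter_mem_nhdsWithin _ (c.continuousAt.eventually (gt_mem_nhds (show _ < ε / 2 from ?_))),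
      ((tendsto_natCast_atTop_atTop.atTop_mul_const (half_pos hε)).eventually_ge_atTop
        (N * ‖x‖)).mono fun M hM v hv => ?_⟩
    · simpa [birkhoffAverage, birkhoffSum, norm_smul, div_eq_inv_mul] using hN
    have v1 := mem_sphere_zero_iff_norm.1 hv.1
    have := MP_f50dde_an.subadd (b := fun M => ‖∑ n ∈ range M, ((conj v • T) ^ n) x‖) N0 (norm_nonneg _)
      (fun M => (norm_sum_le _ _).trans (by simp only [iso v v1]; simp)) (fun M => by
        rw [sum_range_add]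
        refine (norm_add_le _ _).trans_eq ?_
        simp only [pow_add, mul_apply_eq_comp, ← map_sum, iso v v1]) (norm_nonneg x) M
    have h2 : _ < ε / 2 := hv.2
    nlinarith [mul_le_mul_of_nonneg_left h2.le (Nat.cast_nonneg (α := ℝ) M)]
  have nT : IsStarNormal T := isStarNormal_of_mem_unitary hT
  obtain ⟨M, hM, M0⟩ := ((key δ hδ).and (eventually_gt_atTop 0)).exists
  refine ⟨M, M0, fun y => ?_⟩
  have := norm_cfc_le (f := fun z : ℂ => ∑ n ∈ range M, conj ⟪y, (T ^ n) x⟫_ℂ * z ^ n) (a := T)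
    (c := ‖y‖ * (M * δ)) (by positivity) fun w hw => by
      refine le_trans (le_of_eq ?_) ((norm_inner_le_norm (𝕜 := ℂ) y _).trans
        (mul_le_mul_of_nonneg_left (hM w (spectrum.subset_circle_of_unitary hT hw)) (norm_nonneg y)))
      rw [← Complex.norm_conj]
      simp [inner_sum, smul_pow, mul_comm, inner_smul_right]
  have e : ⟪y, cfc (fun z : ℂ => ∑ n ∈ range M, conj ⟪y, (T ^ n) x⟫_ℂ * z ^ n) T x⟫_ℂ =
      (∑ n ∈ range M, ‖⟪y, (T ^ n) x⟫_ℂ‖ ^ 2 : ℝ) := by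
    rw [← Finset.sum_fn, cfc_sum _ _ _ (fun _ _ => by fun_prop)]
    rw [_root_.sum_apply, inner_sum, Complex.ofReal_sum]
    refine sum_congr rfl fun n _ => ?_
    rw [cfc_const_mul _ _ _, cfc_pow_id _ _, smul_apply, inner_smul_right, Complex.conj_mul']
    simp
  have h2 := (norm_inner_le_norm (𝕜 := ℂ) y _).trans (mul_le_mul_of_nonneg_left
    ((ContinuousLinearMap.le_of_opNorm_le _ this x)) (norm_nonneg y))
  rwa [e, Complex.norm_real, Real.norm_of_nonneg (by positivity)] at h2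

lemma hw0 (T : unitary (H →L[ℂ] H)) (u : H) : ∃ σ : Circle → ℂ, Summable σ ∧
    (∀ o, T.1 o = o → ‖o‖ = 1 → ‖⟪o, u⟫_ℂ‖ ^ 2 ≤ (σ 1).re) ∧ ∀ ε > 0, ∃ N : ℕ, 0 < N ∧ ∀ a : ℤ,
      ∑ n ∈ range N, ‖⟪u, (T ^ (a + n)).1 u⟫_ℂ - ∑' θ, σ θ * (θ ^ (a + n) : Circle)‖ ≤ ε * N := by
  let V : Circle → Submodule ℂ H := fun θ => T.1.eqLocus ((θ : ℂ) • 1)
  have iso := fun k : ℤ => ContinuousLinearMap.inner_map_map_of_mem_unitary (T ^ k).2
  have v1 : ∀ θ, ∀ v ∈ V θ, ∀ k : ℤ, (T ^ k).1 v = ((θ ^ k : Circle) : ℂ) • v := fun θ v hv k => by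
    have hv : T.1 v = (θ : ℂ) • v := hv
    have hv' : (T⁻¹).1 v = ((θ⁻¹ : Circle) : ℂ) • v := by
      have : (T⁻¹).1 (T.1 v) = v := by rw [← mul_apply_eq_comp, ← Submonoid.coe_mul]; simp
      rw [hv, map_smul] at this
      rw [← congrArg (((θ⁻¹ : Circle) : ℂ) • ·) this, smul_smul]; simp
    induction k using Int.induction_on with
    | zero => simp
    | succ k ih =>
      rw [zpow_add_one, zpow_add_one, Submonoid.coe_mul, mul_apply_eq_comp, hv, map_smul, ih, smul_smul,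
        Circle.coe_mul, mul_comm]
    | pred k ih =>
      rw [zpow_sub_one, zpow_sub_one, Submonoid.coe_mul, mul_apply_eq_comp, hv', map_smul, ih, smul_smul,
        Circle.coe_mul, mul_comm]
  have ho : OrthogonalFamily ℂ (fun θ => V θ) fun θ => (V θ).subtypeₗᵢ := fun θ θ' h v w => by
    have := iso 1 v w
    rw [v1 θ v v.2, v1 θ' w w.2, inner_smul_left, inner_smul_right, ← mul_assoc, zpow_one, zpow_one,
      ← Circle.coe_inv_eq_conj, ← Circle.coe_mul] at this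
    exact (mul_left_eq_self₀.1 this).resolve_left fun e => h (inv_mul_eq_one.1 (Circle.coe_eq_one.1 e))
  have hc : ∀ θ, CompleteSpace (V θ) := fun θ => (isClosed_eq (f := T.1)
    (g := ((θ : ℂ) • 1 : H →L[ℂ] H)) (by fun_prop) (by fun_prop)).completeSpace_coe
  let W := (⨆ θ, LinearMap.range (V θ).subtypeₗᵢ.toLinearMap).topologicalClosure
  obtain ⟨a, ha⟩ : W.starProjection u ∈ LinearMap.range ho.linearIsometry.toLinearMap :=
    ho.range_linearIsometry ▸ W.starProjection_apply_mem u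
  have h1 : HasSum (fun θ => (a θ : H)) (W.starProjection u) := ha ▸ ho.hasSum_linearIsometry a
  have h2 : ∀ θ, ∀ v ∈ V θ, ⟪v, u - W.starProjection u⟫_ℂ = 0 := fun θ v hv =>
    W.sub_starProjection_mem_orthogonal u v (Submodule.le_topologicalClosure _
      (Submodule.mem_iSup_of_mem θ ⟨⟨v, hv⟩, rfl⟩))
  have h3 : ∀ k : ℤ, HasSum (fun θ => ⟪u, a θ⟫_ℂ * (θ ^ k : Circle)) ⟪u, (T ^ k).1 (W.starProjection u)⟫_ℂ :=
    fun k => by simpa [v1 _ _ (a _).2, mul_comm] using (h1.mapL (T ^ k).1).mapL (innerSL ℂ u)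
  have h4 : ∀ v ∈ V 1, ⟪v, u⟫_ℂ = ⟪v, a 1⟫_ℂ := fun v hv => by
    rw [sub_eq_zero.1 ((inner_sub_right ..).symm.trans (h2 1 v hv))]
    exact (h1.mapL (innerSL ℂ v)).unique (hasSum_single 1 fun θ h => ho h.symm ⟨v, hv⟩ (a θ))
  refine ⟨fun θ => ⟪u, a θ⟫_ℂ, by simpa using (h3 0).summable, fun o h h' => ?_, fun ε hε => ?_⟩
  · beta_reduce
    rw [h4 o (by simpa [V] using h), ← inner_conj_symm u, h4 _ (a 1).2, Complex.conj_re,
      ← RCLike.re_to_complex, inner_self_eq_norm_sq]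
    gcongr
    simpa [h'] using norm_inner_le_norm (𝕜 := ℂ) o (a 1)
  generalize W.starProjection u = d at h2 h3
  obtain ⟨δ, hδ, h⟩ := exists_pos_mul_lt (sq_pos_of_pos hε) (‖u‖ * ‖u‖ * ‖u - d‖)
  obtain ⟨N, N0, hN⟩ := wie T.2 (x := u - d) (fun w hw v hv => h2 ⟨w, mem_sphere_zero_iff_norm.2 hw⟩ v hv) hδ
  refine ⟨N, N0, fun k => ?_⟩
  have h5 := hN ((T ^ (-k)).1 u)
  rw [ContinuousLinearMap.norm_map_of_mem_unitary (T ^ (-k)).2] at h5
  have h6 : ∀ n : ℕ, ⟪u, (T ^ (k + n)).1 u⟫_ℂ - ∑' θ, ⟪u, a θ⟫_ℂ * (θ ^ (k + n) : Circle) =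
      ⟪(T ^ (-k)).1 u, (T.1 ^ n) (u - d)⟫_ℂ := fun n => by
    rw [(h3 _).tsum_eq, ← inner_sub_right, ← map_sub, ← iso (-k), ← mul_apply_eq_comp, ← Submonoid.coe_mul,
      ← zpow_add, neg_add_cancel_left, zpow_natCast, SubmonoidClass.coe_pow]
  simp only [h6]
  refine (sq_le_sq₀ (by positivity) (by positivity)).1 (sq_sum_le_card_mul_sum_sq.trans ?_)
  rw [card_range]
  nlinarith [mul_le_mul_of_nonneg_left h5 (Nat.cast_nonneg (α := ℝ) N),
    mul_le_mul_of_nonneg_left h.le (sq_nonneg (N : ℝ))]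

end

end Pool.Agent.H.MP_cd1425_an
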