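import Pool.Agent.H.MP_cd1425_an.A

namespace Pool.Agent.H.MP_cd1425_an

open Set Filter Topology Metric Finset BoundedContinuousFunction
open scoped InnerProductSpace ComplexConjugate

abbrev B := ℤ →ᵇ ℂ

noncomputable def sh (k : ℤ) : B →L[ℂ] B :=
  compContinuousCLM ℂ ℂ ⟨fun n => n + k, continuous_of_discreteTopology⟩

@[simp] lemma sh_apply (k : ℤ) (f : B) (n : ℤ) : sh k f n = f (n + k) := rfl

noncomputable def χ (θ : Circle) : B :=
  ofNormedAddCommGroupDiscrete (fun n => ((θ ^ n : Circle) : ℂ)) 1 fun _ => (Circle.norm_coe _).le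

lemma χ_apply (θ : Circle) (n : ℤ) : χ θ n = (θ ^ n : Circle) := rfl

lemma χ_norm (θ : Circle) : ‖χ θ‖ ≤ 1 := (norm_le zero_le_one).2 fun _ => (Circle.norm_coe _).le

lemma χ_star (θ : Circle) : star (χ θ) = χ θ⁻¹ := by
  ext n; simp only [star_apply, χ_apply, inv_zpow, Circle.coe_inv_eq_conj, Complex.star_def]

lemma χ_mul (θ θ' : Circle) : χ θ * χ θ' = χ (θ * θ') := by ext n; simp [χ_apply, mul_zpow]

lemma χ_one : χ 1 = 1 := by ext n; simp [χ_apply]

lemma χ_sh (θ : Circle) (k : ℤ) : sh k (χ θ) = ((θ ^ k : Circle) : ℂ) • χ θ := by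
  ext n; rw [sh_apply, χ_apply, zpow_add, Circle.coe_mul, mul_comm]; rfl

lemma sh_mul (k : ℤ) (f g : B) : sh k (f * g) = sh k f * sh k g := rfl

lemma sh_sh (k l : ℤ) (f : B) : sh k (sh l f) = sh (k + l) f := by ext n; simp [add_assoc]

lemma sh_zero (f : B) : sh 0 f = f := by ext n; simp

structure Mean (M : B →L[ℂ] ℂ) : Prop where
  one : M 1 = 1
  inv : ∀ k f, M (sh k f) = M f
  mono : ∀ {f g : B}, (∀ᶠ n in atTop, (f n).re ≤ (g n).re) → (M f).re ≤ (M g).re

variable {M : B →L[ℂ] ℂ}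

lemma Mean.st (h : Mean M) (f : B) : M (star f) = conj (M f) := by
  have k : ∀ f g : B, (∀ n, (f n).re = (g n).re) → (M f).re = (M g).re := fun f g k =>
    (h.mono (.of_forall fun n => (k n).le)).antisymm (h.mono (.of_forall fun n => (k n).ge))
  refine Complex.ext (k _ f (by simp)) ?_
  simpa [neg_eq_iff_eq_neg] using k (Complex.I • star f) (-Complex.I • f) (by simp)

lemma Mean.nb (h : Mean M) {f g : B} (k : ∀ᶠ n in atTop, ‖f n‖ ≤ (g n).re) : ‖M f‖ ≤ (M g).re := by
  obtain ⟨c, h1, h2⟩ := Complex.exists_norm_eq_mul_self (M f)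
  have := h.mono (f := c • f) (k.mono fun n k => (Complex.re_le_norm _).trans (by simpa [h1] using k))
  rwa [map_smul, smul_eq_mul, ← h2] at this

lemma Mean.nb' (h : Mean M) {f : B} {c : ℝ} (k : ∀ n, ‖f n‖ ≤ c) : ‖M f‖ ≤ c := by
  simpa [h.one] using h.nb (g := (c : ℂ) • 1) (.of_forall fun n => by simpa using k n)

lemma Mean.chi (h : Mean M) {θ : Circle} (k : θ ≠ 1) : M (χ θ) = 0 := by
  have := h.inv 1 (χ θ)
  rw [χ_sh, map_smul, zpow_one] at this
  exact (mul_left_eq_self₀.1 this).resolve_left fun e => k (Circle.coe_eq_one.1 e)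

lemma exM {m L : ℕ → ℕ} (hm : ∀ N, N ≤ m N) (hL : ∀ N, N ≤ L N) : ∃ M, Mean M ∧ ∀ f : B, Tendsto
    (fun N => (L N : ℂ)⁻¹ * ∑ n ∈ range (L N), f (m N + n)) (hyperfilter ℕ) (𝓝 (M f)) := by
  have h0 : ∀ (f : B) N, ‖(L N : ℂ)⁻¹ * ∑ n ∈ range (L N), f (m N + n)‖ ≤ ‖f‖ := fun f N => by
    rw [norm_mul, norm_inv, Complex.norm_natCast]
    refine inv_mul_le_of_le_mul₀ (by positivity) (by positivity) ((norm_sum_le _ _).trans ?_)
    simpa using sum_le_card_nsmul _ _ _ fun n (_ : n ∈ range (L N)) => f.norm_coe_le_norm (m N + n)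
  have h1 := fun f : B => (isCompact_closedBall (0 : ℂ) ‖f‖).ultrafilter_le_nhds ((hyperfilter ℕ).map
    fun N => (L N : ℂ)⁻¹ * ∑ n ∈ range (L N), f (m N + n))
    (le_principal_iff.2 (mem_map.2 (univ_mem' fun N => mem_closedBall_zero_iff.2 (h0 f N))))
  choose F h1 h2 using h1
  replace h2 : ∀ f : B, Tendsto (fun N => (L N : ℂ)⁻¹ * ∑ n ∈ range (L N), f (m N + n))
    (hyperfilter ℕ) (𝓝 (F f)) := h2
  let M : B →L[ℂ] ℂ := LinearMap.mkContinuous ⟨⟨F, fun f g => tendsto_nhds_unique (h2 _) (by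
    simpa [sum_add_distrib, mul_add] using (h2 f).add (h2 g))⟩, fun c f => tendsto_nhds_unique (h2 _) (by
    simpa [← mul_sum, mul_left_comm] using (h2 f).const_mul c)⟩ 1 fun f => by simpa using h1 f
  have h3 : Tendsto L (hyperfilter ℕ) atTop :=
    (tendsto_atTop_mono hL tendsto_id).mono_left Nat.hyperfilter_le_atTop
  have h4 : ∀ f, M (sh 1 f) = M f := fun f => sub_eq_zero.1 (tendsto_nhds_unique ((h2 _).sub (h2 f)) (by
    refine squeeze_zero_norm (fun N => ?_) (by
      simpa using (tendsto_natCast_atTop_atTop.comp h3).inv_tendsto_atTop.mul_const (‖f‖ + ‖f‖))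
    have := sum_range_sub (fun n : ℕ => f (m N + n)) (L N)
    simp only [sum_sub_distrib, Nat.cast_add, Nat.cast_one, ← add_assoc] at this
    simp only [← mul_sub, sh_apply, this, norm_mul, norm_inv, Complex.norm_natCast]
    gcongr
    exact norm_sub_le_of_le (f.norm_coe_le_norm _) (f.norm_coe_le_norm _)))
  refine ⟨M, ⟨tendsto_nhds_unique (h2 1) (tendsto_const_nhds.congr' ((h3.eventually_gt_atTop 0).mono
    fun N h => by simp [h.ne'])), fun k f => ?_, fun {f g} h => ?_⟩, h2⟩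
  · induction k using Int.induction_on with
    | zero => rw [sh_zero]
    | succ k ih => rw [add_comm, ← sh_sh, h4, ih]
    | pred k ih => rw [← h4, sh_sh, add_sub_cancel, ih]
  obtain ⟨a, ha⟩ := eventually_atTop.1 h
  refine le_of_tendsto_of_tendsto ((Complex.continuous_re.tendsto _).comp (h2 f))
    ((Complex.continuous_re.tendsto _).comp (h2 g)) (((eventually_ge_atTop
      a.toNat).filter_mono Nat.hyperfilter_le_atTop).mono fun N hN => ?_)
  simp only [Function.comp, ← Complex.ofReal_natCast, ← Complex.ofReal_inv, Complex.re_ofReal_mul,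
    Complex.re_sum]
  exact mul_le_mul_of_nonneg_left (sum_le_sum fun n _ => ha (m N + n) (by have := hm N; omega))
    (by positivity)

def P (_ : Mean M) := B

variable (h : Mean M)

noncomputable instance : AddCommGroup (P h) := inferInstanceAs (AddCommGroup B)
noncomputable instance : Module ℂ (P h) := inferInstanceAs (Module ℂ B)

noncomputable def tp : B ≃ₗ[ℂ] P h := LinearEquiv.refl ℂ _

noncomputable abbrev core : PreInnerProductSpace.Core ℂ (P h) where
  inner a b := M (star ((tp h).symm a) * (tp h).symm b)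
  conj_inner_symm a b := by rw [← h.st]; simp [mul_comm]
  re_inner_nonneg a := by
    simpa using h.mono (f := 0) (g := star ((tp h).symm a) * (tp h).symm a) (.of_forall fun n => by
      simp [← sq]; positivity)
  add_left _ _ _ := by rw [map_add, star_add, add_mul, map_add]
  smul_left := by simp

noncomputable instance : SeminormedAddCommGroup (P h) :=
  InnerProductSpace.Core.toSeminormedAddCommGroup (c := core h)
noncomputable instance : InnerProductSpace ℂ (P h) := InnerProductSpace.ofCore (core h)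

lemma inn (a b : B) : ⟪tp h a, tp h b⟫_ℂ = M (star a * b) := rfl

include h in
lemma Mean.bes (f : B) : Summable fun θ => ‖M (f * χ θ)‖ ^ 2 := by
  classical
  have : Orthonormal ℂ fun θ => tp h (star (χ θ)) := orthonormal_iff_ite.2 fun θ θ' => by
    rw [inn, star_star, χ_star, χ_mul]
    split_ifs with k
    · rw [k, mul_inv_cancel, χ_one, h.one]
    · exact h.chi fun e => k (mul_inv_eq_one.1 e)
  simpa [inn, mul_comm] using this.inner_products_summable (tp h f)

include h in
lemma Mean.hw (u : B) : ∃ (r : B) (σ : Circle → ℂ), (∀ n, r n = M (star u * sh n u)) ∧ Summable σ ∧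
    ‖M u‖ ^ 2 ≤ (σ 1).re ∧ ∀ M', Mean M' → ∀ f k,
      HasSum (fun θ => σ θ * (θ ^ k : Circle) * M' (f * χ θ)) (M' (f * sh k r)) := by
  let e : B →ₗ[ℂ] UniformSpace.Completion (P h) :=
    UniformSpace.Completion.toComplL.toLinearMap ∘ₗ (tp h).toLinearMap
  have e1 : ∀ a b, ⟪e a, e b⟫_ℂ = M (star a * b) := fun a b => UniformSpace.Completion.inner_coe _ _
  have e2 : DenseRange e := UniformSpace.Completion.denseRange_coe (α := P h)
  let s : B ≃ₗ[ℂ] B := .ofLinearMap (sh 1).toLinearMap (sh (-1)).toLinearMap (by ext; simp) (by ext; simp)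
  have e3 : ∀ f, ‖e (s f)‖ = ‖e f‖ := fun f => by
    rw [norm_eq_sqrt_re_inner (𝕜 := ℂ), norm_eq_sqrt_re_inner (𝕜 := ℂ), e1, e1, ← h.inv 1 (star f * f)]
    rfl
  obtain ⟨T, hT⟩ : ∃ T : unitary (UniformSpace.Completion (P h) →L[ℂ] UniformSpace.Completion (P h)),
      ∀ f, T.1 (e f) = e (sh 1 f) := ⟨Unitary.linearIsometryEquiv.symm (s.extendOfIsometry e e e2 e2 e3),
    s.extendOfIsometry_eq e e e2 e2 e3⟩
  have t1 : ∀ (k : ℤ) f, (T ^ k).1 (e f) = e (sh k f) := fun k => by
    induction k using Int.induction_on with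
    | zero => simp [sh_zero]
    | succ k ih => intro f; rw [zpow_add_one, Submonoid.coe_mul, mul_apply_eq_comp, hT, ih, sh_sh]
    | pred k ih =>
      intro f
      have : e f = T.1 (e (sh (-1) f)) := by rw [hT, sh_sh, add_neg_cancel, sh_zero]
      rw [this, ← mul_apply_eq_comp, ← Submonoid.coe_mul, ← zpow_add_one, sub_add_cancel, ih, sh_sh,
        sub_eq_add_neg]
  obtain ⟨σ, h1, h2, h3⟩ := hw0 T (e u)
  let r : B := ofNormedAddCommGroupDiscrete (fun n => M (star u * sh n u)) (‖u‖ * ‖u‖) fun n =>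
    h.nb' fun k => by
      simpa using mul_le_mul (u.norm_coe_le_norm _) (u.norm_coe_le_norm _) (by positivity) (by positivity)
  refine ⟨r, σ, fun _ => rfl, h1, by
    simpa [e1] using h2 (e 1) (hT 1) (by rw [norm_eq_sqrt_re_inner (𝕜 := ℂ), e1]; simp [h.one]),
    fun M' h' f k => ?_⟩
  have h4 : Summable fun θ => σ θ • χ θ := h1.norm.of_norm_bounded fun θ => by
    rw [norm_smul]; exact mul_le_of_le_one_right (norm_nonneg _) (χ_norm θ)
  have h5 : ∀ f, M' (f * r) = M' (f * ∑' θ, σ θ • χ θ) := fun f => by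
    rw [← sub_eq_zero, ← map_sub, ← mul_sub, ← norm_le_zero_iff]
    refine le_of_forall_pos_le_add fun ε hε => ?_
    obtain ⟨δ, hδ, k⟩ := exists_pos_mul_lt hε ‖f‖
    obtain ⟨N, N0, hN⟩ := h3 δ hδ
    have k1 := h'.nb' (f := ∑ n ∈ range N, sh n (f * (r - ∑' θ, σ θ • χ θ))) (c := ‖f‖ * (δ * N)) fun a => by
      rw [BoundedContinuousFunction.sum_apply]
      refine (norm_sum_le _ _).trans (le_trans ?_ (mul_le_mul_of_nonneg_left (hN a) (norm_nonneg f)))
      rw [mul_sum]
      refine sum_le_sum fun n _ => ?_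
      have k2 : ∑' θ, σ θ * (θ ^ (a + n) : Circle) = (∑' θ, σ θ • χ θ) (a + n) :=
        (h4.hasSum.mapL (evalCLM ℂ (a + n))).tsum_eq
      rw [t1, e1, k2, sh_apply, mul_apply, norm_mul]
      exact mul_le_mul_of_nonneg_right (f.norm_coe_le_norm _) (norm_nonneg _)
    simp only [map_sum, h'.inv, sum_const, card_range, nsmul_eq_mul, norm_mul, Complex.norm_natCast] at k1
    have : (0 : ℝ) < N := by positivity
    nlinarith
  have h6 := (h4.hasSum.mul_left (sh (-k) f)).mapL M'
  rw [← h5, ← h'.inv k, sh_mul, sh_sh, add_neg_cancel, sh_zero] at h6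
  refine h6.congr_fun fun θ => ?_
  rw [← h'.inv k (_ * _ • _), sh_mul, sh_sh, add_neg_cancel, sh_zero, map_smul, χ_sh]
  simp [mul_assoc]

end Pool.Agent.H.MP_cd1425_an
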