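import Mathlib

namespace Pool.Agent.H.MP_cd1425_an

open Set Filter Topology Metric Finset

noncomputable def cnt (A : Set ℕ) (m L : ℕ) : ℝ := ∑ n ∈ range L, A.indicator 1 (m + n)

def G (A : Set ℕ) (δ : ℝ) (N : ℕ) : Prop := ∃ L ≥ N, ∃ m ≥ N, δ * L ≤ cnt A m L

def Ps (A : Set ℕ) : Prop := ∃ δ > 0, ∀ N, G A δ N

def rs {Z : Type*} (T : Z → Z) (z : Z) (V : Set Z) : Set ℕ := {n | T^[n] z ∈ V}

def RR {Z : Type*} [TopologicalSpace Z] (T : Z → Z) (z : Z) : Prop := ∀ U ∈ 𝓝 z, Ps (rs T z U)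

variable {A B : Set ℕ} {δ : ℝ} {N : ℕ}

lemma cnt_le {m m' L : ℕ} (h : ∀ n < L, m + n ∈ A → m' + n ∈ B) : cnt A m L ≤ cnt B m' L :=
  sum_le_sum fun n hn => by
    by_cases k : m + n ∈ A
    · simp [k, h n (mem_range.1 hn) k]
    · simp [k, indicator_nonneg]

lemma G.sh (h : G A δ N) {a : ℕ} (k : ∀ n ∈ A, n + a ∈ B) : G B δ N := by
  obtain ⟨L, h1, m, h2, h3⟩ := h
  exact ⟨L, h1, m + a, by omega, h3.trans (cnt_le fun n _ hn => by rw [add_right_comm]; exact k _ hn)⟩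

lemma G.bk {a : ℕ} (h : G A δ (N + a)) (k : ∀ n, n + a ∈ A → n ∈ B) : G B δ N := by
  obtain ⟨L, h1, m, h2, h3⟩ := h
  exact ⟨L, by omega, m - a, by omega, h3.trans (cnt_le fun n _ hn => k _ (by
    rwa [add_right_comm, Nat.sub_add_cancel (by omega)]))⟩

lemma G.le {N' : ℕ} (h : G A δ N') (k : N ≤ N') : G A δ N := by
  obtain ⟨L, h1, m, h2, h3⟩ := h
  exact ⟨L, k.trans h1, m, k.trans h2, h3⟩

lemma Ps.sh (h : Ps A) {a : ℕ} (k : ∀ n ∈ A, n + a ∈ B) : Ps B :=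
  h.imp fun _ h => ⟨h.1, fun N => (h.2 N).sh k⟩

lemma Ps.ne (h : Ps A) : A.Nonempty := by
  obtain ⟨δ, h1, h⟩ := h
  obtain ⟨L, h2, m, -, h3⟩ := h 1
  by_contra! k
  simp only [k, cnt, indicator_empty, sum_const_zero] at h3
  exact h3.not_gt (by positivity)

lemma Ps.un (h : Ps (A ∪ B)) : Ps A ∨ Ps B := by
  obtain ⟨δ, h1, h⟩ := h
  refine or_iff_not_imp_left.2 fun k => ⟨δ / 2, half_pos h1, fun N => ?_⟩
  obtain ⟨N0, k⟩ : ∃ N0, ¬G A (δ / 2) N0 := not_forall.1 fun e => k ⟨_, half_pos h1, e⟩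
  obtain ⟨L, h2, m, h3, h4⟩ := h (max N N0)
  have k1 := not_le.1 fun e => k ⟨L, le_of_max_le_right h2, m, le_of_max_le_right h3, e⟩
  have k2 : cnt (A ∪ B) m L ≤ cnt A m L + cnt B m L := by
    rw [cnt, cnt, cnt, ← sum_add_distrib]
    refine sum_le_sum fun n _ => ?_
    by_cases a : m + n ∈ A <;> by_cases b : m + n ∈ B <;> simp [a, b]
  exact ⟨L, le_of_max_le_left h2, m, le_of_max_le_left h3, by linarith⟩

section
variable {Z : Type*} [TopologicalSpace Z] {T : Z → Z} {z : Z}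

lemma G.op (hT : Continuous T) {V : Set Z} (hV : IsOpen V) (h : G (rs T z V) δ N) :
    ∀ᶠ w in 𝓝 z, G (rs T w V) δ N := by
  obtain ⟨L, h1, m, h2, h3⟩ := h
  have : ∀ᶠ w in 𝓝 z, ∀ n ∈ Set.Iio L, m + n ∈ rs T z V → m + n ∈ rs T w V :=
    (eventually_all_finite (finite_Iio L)).2 fun n _ => eventually_imp_distrib_left.2
      fun k => (hT.iterate (m + n)).continuousAt.eventually_mem (hV.mem_nhds k)
  exact this.mono fun w hw => ⟨L, h1, m, h2, h3.trans (cnt_le hw)⟩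

lemma RR.map {Y : Type*} [TopologicalSpace Y] {S : Y → Y} {φ : Z → Y} (h : RR T z) (hφ : Continuous φ)
    (k : ∀ w, φ (T w) = S (φ w)) : RR S (φ z) := fun U hU =>
  (h _ (hφ.continuousAt hU)).sh (a := 0) fun n hn => by
    have : φ (T^[n] z) = S^[n] (φ z) := (show Function.Semiconj φ T S from k).iterate_right n z
    exact (this ▸ hn : S^[n] (φ z) ∈ U)

lemma RR.rb {K : Type*} [Group K] [TopologicalSpace K] [IsTopologicalGroup K] [CompactSpace K]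
    [T2Space K] (a : K) (hT : Continuous T) (h : RR T z) (b : ℕ) {W : Set Z} (hW : W ∈ 𝓝 (T^[b] z))
    {O : Set K} (hO : O ∈ 𝓝 (a ^ b)) : Ps {n | T^[n] z ∈ W ∧ a ^ n ∈ O} := by
  let Θ := {k : K | ∀ U ∈ 𝓝 z, ∀ O ∈ 𝓝 k, Ps {n | T^[n] z ∈ U ∧ a ^ n ∈ O}}
  obtain ⟨k, k1, k2⟩ := exists_idempotent_in_compact_subsemigroup (fun _ => continuous_mul_const _) Θ
    (by
      by_contra! e
      obtain ⟨U, u1, u2⟩ := isCompact_univ.induction_on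
        (p := fun s : Set K => ∃ U ∈ 𝓝 z, ¬Ps {n | T^[n] z ∈ U ∧ a ^ n ∈ s})
        ⟨univ, univ_mem, fun k => by simpa using k.ne⟩
        (fun s t k ⟨U, u1, u2⟩ => ⟨U, u1, fun e => u2 (e.sh (a := 0) fun n hn => ⟨hn.1, k hn.2⟩)⟩)
        (fun s t ⟨U, u1, u2⟩ ⟨U', u3, u4⟩ => ⟨U ∩ U', inter_mem u1 u3, fun e => (Ps.un (e.sh (a := 0)
          fun n hn => hn.2.imp (And.intro hn.1.1) (And.intro hn.1.2))).elim u2 u4⟩) fun k _ => by
          have : k ∉ Θ := by simp [e]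
          simp only [Θ, mem_ofPred_eq, not_forall] at this
          obtain ⟨U, u1, O, u2, u3⟩ := this
          exact ⟨O, mem_nhdsWithin_of_mem_nhds u2, U, u1, u3⟩
      exact u2 ((h U u1).sh (a := 0) fun n hn => ⟨hn, trivial⟩))
    (IsClosed.isCompact (isClosed_of_closure_subset fun k hk U u1 O u2 => by
      obtain ⟨k', k1, k2⟩ := mem_closure_iff_nhds.1 hk _ (interior_mem_nhds.2 u2)
      exact k2 U u1 O (mem_interior_iff_mem_nhds.1 k1)))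
    fun k k1 k' k2 U u1 O u2 => by
      obtain ⟨O1, o1, O2, o2, o3⟩ := mem_prod_iff.1 (nhds_prod_eq (x := k) (y := k') ▸
        continuous_mul.continuousAt (x := (k, k')) u2)
      obtain ⟨n, n1, n2⟩ := (k2 _ (interior_mem_nhds.2 u1) O2 o2).ne
      refine (k1 _ ((hT.iterate n).continuousAt (mem_interior_iff_mem_nhds.1 n1)) O1 o1).sh (a := n)
        fun i hi => ⟨?_, ?_⟩
      · rw [add_comm, Function.iterate_add_apply]; exact hi.1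
      · rw [pow_add]; exact o3 (mk_mem_prod hi.2 n2)
  obtain rfl : k = 1 := mul_eq_left.1 k2
  refine (k1 _ ((hT.iterate b).continuousAt hW) _ ((continuous_mul_const (a ^ b)).continuousAt
    (by simpa using hO))).sh (a := b) fun i hi => ⟨?_, ?_⟩
  · rw [add_comm, Function.iterate_add_apply]; exact hi.1
  · rw [pow_add]; exact hi.2

end

lemma LL {Z St : Type*} [MetricSpace Z] [CompleteSpace Z] {T : Z → Z} (hT : Continuous T) (pt : St → Z)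
    (C : St → Set (Set Z × ℝ)) (P : ℕ → Set Z → Prop) (hC : ∀ σ, (C σ).Finite)
    (hC' : ∀ σ, ∀ c ∈ C σ, IsOpen c.1) (step : ∀ σ, ∀ W ∈ 𝓝 (pt σ), ∀ c ∈ C σ, ∀ N,
      ∃ σ', pt σ' ∈ W ∧ C σ' = C σ ∧ G (rs T (pt σ') c.1) c.2 N)
    (new : ∀ σ n, ∀ W ∈ 𝓝 (pt σ), ∃ σ' V δ, 0 < δ ∧ pt σ' ∈ V ∧ V ⊆ W ∧ P n V ∧ (V, δ) ∈ C σ' ∧
      C σ ⊆ C σ') (σ0 : St) {W0 : Set Z} (hW : W0 ∈ 𝓝 (pt σ0)) :
    ∃ z ∈ W0, RR T z ∧ (∀ c ∈ C σ0, ∀ N, G (rs T z c.1) c.2 N) ∧ ∀ n, ∃ V, P n V ∧ z ∈ V := by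
  have h1 : ∀ σ N, ∀ W ∈ 𝓝 (pt σ), ∀ S : Set (Set Z × ℝ), S.Finite → S ⊆ C σ → ∃ σ', C σ' = C σ ∧
      ∀ᶠ w in 𝓝 (pt σ'), w ∈ W ∧ ∀ c ∈ S, G (rs T w c.1) c.2 N := fun σ N W hW S hS => by
    induction S, hS using Set.Finite.induction_on with
    | empty => exact fun _ => ⟨σ, rfl, mem_of_superset hW fun w h => ⟨h, by simp⟩⟩
    | insert _ _ ih =>
      intro k
      obtain ⟨σ1, k1, k2⟩ := ih ((subset_insert _ _).trans k)
      obtain ⟨σ2, k3, k4, k5⟩ := step σ1 _ k2.eventually_nhds _ (k1 ▸ k (mem_insert _ _)) N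
      exact ⟨σ2, k4.trans k1, ((k5.op hT (hC' σ _ (k (mem_insert _ _)))).and k3).mono fun w h =>
        ⟨h.2.1, forall_mem_insert.2 ⟨h.1, h.2.2⟩⟩⟩
  have h2 : ∀ (n : ℕ) (p : {p : St × ℝ // 0 < p.2}), ∃ q : {p : St × ℝ // 0 < p.2}, q.1.2 ≤ 1 / (n + 1) ∧
      C p.1.1 ⊆ C q.1.1 ∧ (∀ w ∈ closedBall (pt q.1.1) q.1.2, ∀ c ∈ C q.1.1, G (rs T w c.1) c.2 n) ∧
      ∃ V δ, 0 < δ ∧ P n V ∧ (V, δ) ∈ C q.1.1 ∧ closedBall (pt q.1.1) q.1.2 ⊆ V ∧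
        V ⊆ ball (pt p.1.1) p.1.2 := fun n p => by
    obtain ⟨σ1, V, δ, k1, k2, k3, k4, k5, k6⟩ := new p.1.1 n _ (ball_mem_nhds _ p.2)
    obtain ⟨σ2, k7, k8⟩ := h1 σ1 n V ((hC' _ _ k5).mem_nhds k2) _ (hC σ1) le_rfl
    obtain ⟨r, r1, r2⟩ := nhds_basis_closedBall.mem_iff.1 k8
    have r3 := closedBall_subset_closedBall (x := pt σ2) (min_le_left r (1 / (n + 1)))
    exact ⟨⟨(σ2, min r (1 / (n + 1))), lt_min r1 (by positivity)⟩, min_le_right _ _, k7 ▸ k6,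
      fun w hw => k7 ▸ (r2 (r3 hw)).2, V, δ, k1, k4, k7 ▸ k5, fun w hw => (r2 (r3 hw)).1, k3⟩
  choose F f1 f2 f3 V δ f4 f5 f6 f7 f8 using h2
  obtain ⟨r, r1, r2⟩ := nhds_basis_closedBall.mem_iff.1 hW
  obtain ⟨s, s0, s1⟩ : ∃ s : ℕ → {p : St × ℝ // 0 < p.2}, s 0 = ⟨(σ0, r), r1⟩ ∧
    ∀ n, s (n + 1) = F n (s n) := ⟨fun n => n.rec ⟨(σ0, r), r1⟩ F, rfl, fun _ => rfl⟩
  have a1 : Antitone fun n => closedBall (pt (s n).1.1) (s n).1.2 := antitone_nat_of_succ_le fun n =>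
    s1 n ▸ (f7 n _).trans ((f8 n _).trans ball_subset_closedBall)
  have a2 : Monotone fun n => C (s n).1.1 := monotone_nat_of_le_succ fun n => s1 n ▸ f2 n _
  have a3 : Tendsto (fun n => (s n).1.2) atTop (𝓝 0) := (tendsto_add_atTop_iff_nat 1).1 (squeeze_zero
    (fun n => (s _).2.le) (fun n => s1 n ▸ f1 n _) tendsto_one_div_add_atTop_nhds_zero_nat)
  obtain ⟨z, hz⟩ := nonempty_iInter_of_nonempty_biInter (s := fun n => closedBall (pt (s n).1.1) (s n).1.2)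
    (fun _ => isClosed_closedBall) (fun _ => isBounded_closedBall) (fun N => ⟨_, mem_iInter₂.2
      fun n h => a1 h (mem_closedBall_self (s N).2.le)⟩) (squeeze_zero (fun _ => diam_nonneg)
      (fun n => diam_closedBall (s n).2.le) (by simpa using a3.const_mul 2))
  rw [mem_iInter] at hz
  have a4 : ∀ n, ∀ c ∈ C (s n).1.1, ∀ N, G (rs T z c.1) c.2 N := fun n c hc N =>
    (f3 (n + N) _ z (s1 _ ▸ hz _) c (s1 _ ▸ a2 (by omega) hc)).le (by omega)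
  refine ⟨z, r2 (by simpa [s0] using hz 0), fun U hU => ?_, by simpa [s0] using a4 0,
    fun n => ⟨_, f5 n (s n), f7 _ _ (s1 n ▸ hz _)⟩⟩
  obtain ⟨ε, e1, e2⟩ := Metric.mem_nhds_iff.1 hU
  obtain ⟨n, hn⟩ := (a3.eventually (gt_mem_nhds (half_pos e1))).exists
  refine ⟨_, f4 n (s n), fun N => (a4 (n + 1) _ (s1 n ▸ f6 n _) N).sh (a := 0) fun i hi => e2 ?_⟩
  have k1 := mem_ball.1 (f8 _ _ hi)
  have k2 := mem_closedBall.1 (hz n)
  exact mem_ball.2 ((dist_triangle_right (T^[i] z) z (pt (s n).1.1)).trans_lt (by linarith))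

end Pool.Agent.H.MP_cd1425_an
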