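import Pool.Agent.H.MP_cd1425_an.B
import Pool.Agent.H.MP_cd1425_an.C

namespace Pool.Agent.H.MP_cd1425_an

open Set Filter Topology Metric Finset BoundedContinuousFunction
open scoped ComplexConjugate

noncomputable def ind (A : Set ℕ) : B :=
  ofNormedAddCommGroupDiscrete (fun n => (((↑) '' A : Set ℤ).indicator (1 : ℤ → ℝ) n : ℝ)) 1 fun n => by
    by_cases h : n ∈ ((↑) '' A : Set ℤ) <;> simp [h]

variable {A A' : Set ℕ}

lemma ind_nat (n : ℕ) : ind A n = (A.indicator (1 : ℕ → ℝ) n : ℝ) := by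
  by_cases h : n ∈ A <;> simp [ind, h, Set.indicator]

lemma ind_or (A : Set ℕ) (n : ℤ) : ind A n = 0 ∨ ind A n = 1 ∧ ∃ a ∈ A, (a : ℤ) = n := by
  by_cases h : n ∈ ((↑) '' A : Set ℤ)
  · exact .inr ⟨by simp only [ind, coe_ofNormedAddCommGroupDiscrete, indicator_of_mem h]; simp, h⟩
  · exact .inl (by simp only [ind, coe_ofNormedAddCommGroupDiscrete, indicator_of_notMem h]; simp)

lemma ind_star : star (ind A) = ind A := by ext n; rcases ind_or A n with h | ⟨h, -⟩ <;> simp [h]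

lemma ind_le (θ : Circle) (n : ℤ) : ‖(ind A * χ θ) n‖ ≤ 1 := by
  rcases ind_or A n with h | ⟨h, -⟩ <;> simp [h, χ_apply, Circle.norm_coe]

lemma Ps.mean (h : Ps A) : ∃ (m L : ℕ → ℕ) (M : B →L[ℂ] ℂ) (η : ℝ), (∀ N, N ≤ m N) ∧ (∀ N, N ≤ L N) ∧
    Mean M ∧ 0 < η ∧ M (ind A) = η ∧ ∀ f : B, Tendsto
      (fun N => (L N : ℂ)⁻¹ * ∑ n ∈ range (L N), f (m N + n)) (hyperfilter ℕ) (𝓝 (M f)) := by
  obtain ⟨δ, h1, h⟩ := h
  choose L h2 m h3 h4 using h
  obtain ⟨M, h5, h6⟩ := exM h3 h2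
  refine ⟨m, L, M, (M (ind A)).re, h3, h2, h5, h1.trans_le (ge_of_tendsto ((Complex.continuous_re.tendsto
    _).comp (h6 _)) (((eventually_gt_atTop 0).filter_mono Nat.hyperfilter_le_atTop).mono fun N hN => ?_)),
    (Complex.conj_eq_iff_re.1 (by rw [← h5.st, ind_star])).symm, h6⟩
  simp only [Function.comp, ← Nat.cast_add, ind_nat, ← Complex.ofReal_natCast, ← Complex.ofReal_inv,
    ← Complex.ofReal_sum, ← Complex.ofReal_mul, Complex.ofReal_re]
  rw [le_inv_mul_iff₀ (Nat.cast_pos.2 (hN.trans_le (h2 N))), mul_comm]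
  exact h4 N

lemma ser {a : Circle → ℂ} (h : Summable a) (φ : Circle → Circle) : ∃ D : B,
    (∀ n : ℤ, HasSum (fun θ => a θ * (φ θ ^ n : Circle)) (D n)) ∧
      ∀ (M : B →L[ℂ] ℂ) f, HasSum (fun θ => a θ * M (f * χ (φ θ))) (M (f * D)) := by
  have h4 : Summable fun θ => a θ • χ (φ θ) := h.norm.of_norm_bounded fun θ => by
    rw [norm_smul]; exact mul_le_of_le_one_right (norm_nonneg _) (χ_norm _)
  exact ⟨_, fun n => h4.hasSum.mapL (evalCLM ℂ n), fun M f => by simpa using (h4.hasSum.mul_left f).mapL M⟩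

lemma sm {a b : Circle → ℂ} (h : Summable a) {c : ℝ} (k : ∀ θ, ‖b θ‖ ≤ c) : Summable fun θ => a θ * b θ :=
  (h.norm.mul_right c).of_norm_bounded fun θ => by rw [norm_mul]; gcongr; exact k θ

lemma sm2 {M M' : B →L[ℂ] ℂ} (h : Mean M) (h' : Mean M') (f g : B) :
    Summable fun θ => M (f * χ θ) * M' (g * χ θ⁻¹) :=
  ((h.bes f).add ((h'.bes g).comp_injective inv_injective)).of_norm_bounded fun θ => by
    rw [norm_mul, Function.comp]
    nlinarith [sq_nonneg (‖M (f * χ θ)‖ - ‖M' (g * χ θ⁻¹)‖), norm_nonneg (M (f * χ θ)),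
      norm_nonneg (M' (g * χ θ⁻¹))]

lemma cmp {M : B →L[ℂ] ℂ} (h : Mean M) {η : ℝ} (k : M (ind A) = η) {D : B} {c : ℝ}
    (hD : ∀ e ∈ A, (D e).re ≤ c) : (M (ind A * D)).re ≤ c * η := by
  simpa [k] using h.mono (f := ind A * D) (g := (c : ℂ) • ind A) (.of_forall fun n => by
    rcases ind_or A n with h | ⟨h, e, he, rfl⟩
    · simp [h]
    · simpa [h] using hD e he)

lemma key0 {M M' : B →L[ℂ] ℂ} (h : Mean M) (h' : Mean M') {η η' : ℝ} (h1 : 0 < η) (h2 : 0 < η')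
    (h3 : M (ind A) = η) (h4 : M' (ind A') = η') : ∃ e ∈ A, ∃ e' ∈ A', η * η' / 2 <
      (∑' θ, M (ind A * χ θ) * M' (ind A' * χ θ⁻¹) * (θ ^ e' / θ ^ e : Circle)).re := by
  by_contra! k
  have k1 := sm2 h h' (ind A) (ind A')
  obtain ⟨D, d1, d2⟩ := ser (sm k1 fun θ => h.nb' (ind_le (A := A) θ⁻¹)) id
  have k2 := cmp h' h4 (D := D) (c := η * η' / 2 * η) fun e' he' => by
    obtain ⟨D', d3, d4⟩ := ser (sm k1 fun θ => (Circle.norm_coe (θ ^ e')).le) Inv.inv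
    rw [(d1 e').unique ((d4 M (ind A)).congr_fun fun θ => by simp only [id, zpow_natCast]; ring)]
    refine cmp h h3 fun e he => le_of_eq_of_le (congrArg _ ?_) (k e he e' he')
    rw [← (d3 e).tsum_eq]
    simp [div_eq_mul_inv, mul_assoc]
  have k3 : ∀ θ, M (ind A * χ θ) * M' (ind A' * χ θ⁻¹) * M (ind A * χ θ⁻¹) * M' (ind A' * χ (id θ)) =
      ((‖M (ind A * χ θ)‖ ^ 2 * ‖M' (ind A' * χ θ)‖ ^ 2 : ℝ) : ℂ) := fun θ => by
    rw [← χ_star, ← ind_star, ← ind_star (A := A'), ← star_mul', ← star_mul', h.st, h'.st, ind_star, ind_star]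
    push_cast
    rw [← Complex.mul_conj', ← Complex.mul_conj', id]; ring
  have k4 := Complex.hasSum_re (d2 M' (ind A'))
  simp only [k3, Complex.ofReal_re] at k4
  have k5 := le_hasSum k4 1 fun _ _ => by positivity
  simp only [χ_one, mul_one, h3, h4, Complex.norm_real, Real.norm_eq_abs, sq_abs] at k5
  nlinarith [mul_pos (mul_pos h1 h1) (mul_pos h2 h2)]

lemma key (hA : Ps A) (hA' : Ps A') : ∃ δ > (0 : ℝ), ∃ O : Set (Circle → Circle), IsOpen O ∧
    (∃ e ∈ A, ∃ e' ∈ A', (id ^ e' / id ^ e : Circle → Circle) ∈ O) ∧ ∀ (b : ℕ) (E : Set ℕ) (N : ℕ), Ps E →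
      ∃ m L, N ≤ L ∧ b ≤ m ∧ ∀ E', Ps E' → (∀ e ∈ E, ∀ e1 ∈ E', ∀ e2 ∈ E',
        (id ^ b / id ^ e / id ^ e2 * id ^ e1 : Circle → Circle) ∈ O) → ∃ e ∈ E, ∃ e1 ∈ E', ∃ e2 ∈ E',
          ∃ p ≥ N, p + e1 + b = e2 + m ∧ δ * L ≤ cnt {n | m + n ∈ A' ∧ p + e + n ∈ A} 0 L := by
  classical
  obtain ⟨-, -, M, η, -, -, hM, h1, h3, -⟩ := hA.mean
  obtain ⟨m, L, M', η', l1, l2, hM', h2, h4, l3⟩ := hA'.mean
  have k1 := sm2 hM hM' (ind A) (ind A')
  refine ⟨η * η' / 4, by positivity, {z | η * η' / 2 <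
    (∑' θ, M (ind A * χ θ) * M' (ind A' * χ θ⁻¹) * z θ).re}, isOpen_lt continuous_const
    (Complex.continuous_re.comp (continuous_tsum (fun θ => by fun_prop) k1.norm fun θ z => by simp [Circle.norm_coe])),
    key0 hM hM' h1 h2 h3 h4, fun b E N hE => ?_⟩
  obtain ⟨δ, hδ, d1, d2⟩ : ∃ δ, 0 < δ ∧ η * η' / 4 = δ ∧ η * η' / 2 = 2 * δ :=
    ⟨_, by positivity, rfl, by ring⟩
  rw [d1, d2]
  obtain ⟨-, -, ME, ζ, -, -, hME, h5, h6, -⟩ := hE.mean
  obtain ⟨α, hα⟩ : ∃ α : ℕ → Circle → ℂ, ∀ N θ, α N θ =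
    (L N : ℂ)⁻¹ * ∑ n ∈ range (L N), (ind A' * χ θ⁻¹) (m N + n) := ⟨_, fun _ _ => rfl⟩
  have a1 : ∀ N θ, ‖α N θ‖ ≤ 1 := fun N θ => by
    rw [hα, norm_mul, norm_inv, Complex.norm_natCast]
    refine inv_mul_le_of_le_mul₀ (by positivity) (by positivity) ((norm_sum_le _ _).trans ?_)
    simpa using sum_le_card_nsmul _ _ _ fun n (_ : n ∈ range (L N)) => ind_le (A := A') θ⁻¹ (m N + n)
  have a2 : ∀ N θ, ‖M' (ind A' * χ θ⁻¹) - α N θ‖ ≤ 1 + 1 := fun N θ =>
    norm_sub_le_of_le (hM'.nb' (ind_le _)) (a1 N θ)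
  have k2 := (sm2 hM hME (ind A) (ind E)).norm
  have k3 := tendsto_tsum_of_dominated_convergence (𝓕 := hyperfilter ℕ) (f := fun N θ =>
    ‖M (ind A * χ θ) * ME (ind E * χ θ⁻¹)‖ * ‖M' (ind A' * χ θ⁻¹) - α N θ‖) (g := fun _ => 0)
    (k2.mul_right (1 + 1)) (fun θ => by
      simpa only [← hα, sub_self, norm_zero, mul_zero] using ((l3 (ind A' * χ θ⁻¹)).const_sub (M' (ind A' * χ θ⁻¹))).norm.const_mul
        ‖M (ind A * χ θ) * ME (ind E * χ θ⁻¹)‖) (.of_forall fun N θ => by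
      rw [Real.norm_of_nonneg (by positivity)]; gcongr; exact a2 N θ)
  rw [tsum_zero] at k3
  obtain ⟨J, j1, j2⟩ := ((k3.eventually (gt_mem_nhds (mul_pos hδ h5))).and ((eventually_gt_atTop
    (N + b)).filter_mono Nat.hyperfilter_le_atTop)).exists
  have j3 := l1 J
  have j4 := l2 J
  refine ⟨m J, L J, by omega, by omega, fun E' hE' hO => ?_⟩
  by_contra! hc
  obtain ⟨-, -, MF, ξ, -, -, hMF, h7, h8, -⟩ := hE'.mean
  obtain ⟨r, σ, r1, r2, r3, r4⟩ := hMF.hw (ind E')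
  rw [ind_star] at r1
  have r5 : ∀ n, r n = 0 ∨ ∃ e1 ∈ E', ∃ e2 ∈ E', (e1 : ℤ) + n = e2 := fun n => by
    refine or_iff_not_imp_right.2 fun k => ?_
    rw [r1, ← map_zero MF]
    congr 1
    ext t
    rcases ind_or E' t with h | ⟨-, e1, h1, rfl⟩
    · simp [h]
    rcases ind_or E' (e1 + n) with h | ⟨-, e2, h2, h⟩
    · simp [h]
    · exact (k ⟨e1, h1, e2, h2, h.symm⟩).elim
  have r6 : ∀ n, ‖r n‖ ≤ (r n).re := fun n => r1 n ▸ hMF.nb (.of_forall fun t => by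
    rcases ind_or E' t with h | ⟨h, -⟩ <;> rcases ind_or E' (t + n) with h' | ⟨h', -⟩ <;> simp [h, h'])
  have r7 : ∀ n, (r n).im = 0 := fun n =>
    Complex.abs_re_eq_norm.1 ((Complex.abs_re_le_norm _).antisymm ((r6 n).trans (le_abs_self _)))
  have r8 : ∀ n, 0 ≤ (r n).re := fun n => (norm_nonneg _).trans (r6 n)
  have s1 : ∀ θ, σ θ = M (r * χ θ⁻¹) := fun θ => by
    have := (r4 M hM (χ θ⁻¹) 0).unique (hasSum_single θ fun θ' k => by
      rw [χ_mul, hM.chi fun e => k (inv_mul_eq_one.1 e).symm, mul_zero])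
    rw [mul_comm r, ← sh_zero r, this, χ_mul]
    simp [χ_one, hM.one]
  have s2 : M r = σ 1 := by simp [s1, χ_one]
  have s3 : ∀ θ, ‖σ θ‖ ≤ (σ 1).re := fun θ => s2 ▸ s1 θ ▸ hM.nb (.of_forall fun n => by
    simpa [χ_apply, Circle.norm_coe] using r6 n)
  have s4 : 0 < (σ 1).re := lt_of_lt_of_le (by simp [h8, sq_pos_of_pos h7]) r3
  have s5 := sm (sm r2 fun θ => hM.nb' (ind_le (A := A) θ)) fun θ => (Circle.norm_coe (θ ^ b)).le
  obtain ⟨D, d3, d4⟩ := ser (sm s5 fun θ => (norm_neg _).trans_le (a2 J θ)) Inv.inv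
  have k4 := cmp hME h6 (D := D) (c := -(δ * (σ 1).re)) fun e he => by
    obtain ⟨D', d5, d6⟩ := ser (sm k1 fun θ => (Circle.norm_coe (θ ^ b / θ ^ e)).le) Inv.inv
    have i1 := hM.mono (f := ((2 * δ : ℝ) : ℂ) • r) (g := r * D') (.of_forall fun n => by
      rcases r5 n with h | ⟨e1, h1, e2, h2, h⟩
      · simp [h]
      have := hO e he e1 h1 e2 h2
      rw [mem_ofPred_eq, show (∑' θ, _) = D' n from (d5 n).tsum_eq ▸ tsum_congr fun θ => by
        obtain rfl : n = e2 - e1 := by omega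
        simp [zpow_sub₀, div_eq_mul_inv, mul_assoc, mul_comm, mul_left_comm]] at this
      simpa [r7, mul_comm] using mul_le_mul_of_nonneg_left this.le (r8 n))
    have i2 := hM.mono (f := (L J : ℂ)⁻¹ • ∑ n ∈ range (L J), ind A' (m J + n) •
      (sh (m J + n) (ind A) * sh (b - e) r)) (g := (δ : ℂ) • sh (b - e) r)
      ((eventually_ge_atTop (e + N : ℤ)).mono fun s hs => by
        rcases r5 (s + (b - e)) with h | ⟨e1, h1, e2, h2, h⟩
        · simp [h]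
        obtain ⟨p, hp⟩ := Int.eq_ofNat_of_zero_le (show 0 ≤ s + m J - e by omega)
        have := (hc e he e1 h1 e2 h2 p (by omega) (by omega)).le
        have i3 : ∀ n : ℕ, ind A' (m J + n) * ind A (s + (m J + n)) = (Set.indicator
            {n | m J + n ∈ A' ∧ p + e + n ∈ A} (1 : ℕ → ℝ) (0 + n) : ℝ) := fun n => by
          rw [show s + (m J + n) = (p + e + n : ℕ) by omega, ← Nat.cast_add, ind_nat, ind_nat]
          by_cases a : m J + n ∈ A' <;> by_cases b : p + e + n ∈ A <;> simp [a, b]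
        simp only [BoundedContinuousFunction.smul_apply, BoundedContinuousFunction.sum_apply, mul_apply, sh_apply, smul_eq_mul,
          ← mul_assoc, i3, ← sum_mul, ← Complex.ofReal_sum, ← Complex.ofReal_natCast,
          ← Complex.ofReal_inv, ← Complex.ofReal_mul, Complex.re_ofReal_mul]
        gcongr
        · exact r8 _
        · exact inv_mul_le_of_le_mul₀ (by positivity) hδ.le (mul_comm δ _ ▸ this))
    have i4 := (hasSum_sum fun (n : ℕ) (_ : n ∈ range (L J)) => (r4 M hM (ind A)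
      (b - e - (m J + n))).mul_left (ind A' (m J + n))).mul_left (L J : ℂ)⁻¹
    have i5 : ∀ n : ℤ, M (sh n (ind A) * sh (b - e) r) = M (ind A * sh (b - e - n) r) := fun n => by
      rw [← hM.inv n (ind A * _), sh_mul, sh_sh, add_sub_cancel]
    simp only [map_smul, map_sum, smul_eq_mul, i5, hM.inv, s2, Complex.re_ofReal_mul] at i1 i2
    rw [(d3 e).unique ((i4.sub (d6 M r)).congr_fun fun θ => by
      rw [← s1, hα]
      simp only [mul_apply, χ_apply, neg_sub, mul_sub, sub_mul, mul_sum, sum_mul]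
      congr 1
      · refine sum_congr rfl fun n _ => ?_
        simp only [sub_eq_add_neg, zpow_add, zpow_neg, neg_add, inv_pow, zpow_natCast, Circle.coe_mul]
        ring
      · simp only [div_eq_mul_inv, inv_pow, zpow_natCast, Circle.coe_mul]
        ring), Complex.sub_re]
    linarith
  have k5 : Summable fun θ => ‖M (ind A * χ θ) * ME (ind E * χ θ⁻¹)‖ * ‖M' (ind A' * χ θ⁻¹) - α J θ‖ :=
    (k2.mul_right (1 + 1)).of_nonneg_of_le (fun θ => by positivity) fun θ => by gcongr; exact a2 J θ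
  have k6 := (d4 ME (ind E)).norm_le_of_bounded (k5.hasSum.mul_left (σ 1).re) fun θ => by
    simp only [norm_mul, norm_neg, Circle.norm_coe, mul_one]
    refine le_of_eq_of_le ?_ (mul_le_mul_of_nonneg_right (s3 θ) (by positivity))
    ring
  have k7 := k6.trans_lt (mul_lt_mul_of_pos_left j1 s4)
  linarith [neg_le_of_abs_le (Complex.abs_re_le_norm (ME (ind E * D)))]

end Pool.Agent.H.MP_cd1425_an
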