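import Pool.Agent.H.MP_cd1425_an.D

namespace Pool.Agent.H.MP_cd1425_an

open Set Filter Topology Metric

lemma two {Y Y' : Type*} [MetricSpace Y] [CompleteSpace Y] [MetricSpace Y'] [CompleteSpace Y']
    {T : Y → Y} {T' : Y' → Y'} (hT : Continuous T) (hT' : Continuous T') {y : Y} {y' : Y'} (hy : RR T y)
    (hy' : RR T' y') {C0 : Set (Set Y × ℝ)} (h0 : C0.Finite) (h1 : ∀ c ∈ C0, IsOpen c.1 ∧
      ∀ N, G (rs T y c.1) c.2 N) {W0 : Set (Y × Y')} (hW : W0 ∈ 𝓝 (y, y')) :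
    ∃ z ∈ W0, RR (Prod.map T T') z ∧ ∀ c ∈ C0, ∀ N, G (rs T z.1 c.1) c.2 N := by
  obtain ⟨a, ha⟩ : ∃ a : Circle → Circle, a = id := ⟨_, rfl⟩
  obtain ⟨I, hI⟩ : ∃ I : (Circle → Circle) → Set (Y × Y') × ℝ → Prop, ∀ z c, I z c ↔ ∃ O, IsOpen O ∧
      z ∈ O ∧ ∀ b b' : ℕ, a ^ b' / a ^ b ∈ O → ∀ W ∈ 𝓝 (T^[b] y, T'^[b'] y'), ∀ O' ∈ 𝓝 (a ^ b' / a ^ b),
        ∀ N, ∃ e e' : ℕ, (T^[e] y, T'^[e'] y') ∈ W ∧ a ^ e' / a ^ e ∈ O' ∧
          G (rs (Prod.map T T') (T^[e] y, T'^[e'] y') c.1) c.2 N := ⟨_, fun _ _ => Iff.rfl⟩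
  have i1 : ∀ {z} {C : Set _}, C.Finite → (∀ c ∈ C, IsOpen c.1 ∧ I z c) →
      ∀ᶠ w in 𝓝 z, ∀ c ∈ C, IsOpen c.1 ∧ I w c := fun h k => (eventually_all_finite h).2 fun c hc => by
    obtain ⟨O, o1, o2, o3⟩ := (hI _ _).1 (k c hc).2
    exact mem_of_superset (o1.mem_nhds o2) fun w hw => ⟨(k c hc).1, (hI _ _).2 ⟨O, o1, hw, o3⟩⟩
  have it : ∀ n (z : Y × Y'), (Prod.map T T')^[n] z = (T^[n] z.1, T'^[n] z.2) := fun n z => by
    rw [Prod.map_iterate]; rfl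
  obtain ⟨z, z1, z2, z3, -⟩ := LL (hT.prodMap hT') (St := {s : ℕ × ℕ × Set (Set (Y × Y') × ℝ) //
    s.2.2.Finite ∧ ∀ c ∈ s.2.2, IsOpen c.1 ∧ I (a ^ s.2.1 / a ^ s.1) c})
    (fun s => (T^[s.1.1] y, T'^[s.1.2.1] y')) (fun s => s.1.2.2) (fun _ _ => True) (fun s => s.2.1)
    (fun s c h => (s.2.2 c h).1) (by
      rintro ⟨⟨b, b', C⟩, c1, c2⟩ W hW c hc N
      obtain ⟨O, -, o2, o3⟩ := (hI _ _).1 (c2 c hc).2
      obtain ⟨e, e', k1, k2, k3⟩ := o3 b b' o2 W hW _ (i1 c1 c2) N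
      exact ⟨⟨(e, e', C), c1, k2⟩, k1, rfl, k3⟩) (by
      rintro ⟨⟨b, b', C⟩, c1, c2⟩ - W hW
      obtain ⟨V, V', v1, v2, v3, v4, v5⟩ := mem_nhds_prod_iff'.1 hW
      obtain ⟨O1, o1, O2, o2, o3⟩ := mem_nhds_prod_iff.1 ((continuous_snd.div' continuous_fst).continuousAt
        (x := (a ^ b, a ^ b')) (i1 c1 c2))
      obtain ⟨δ, d1, O, d2, ⟨e, d3, e', d4, d5⟩, d6⟩ := key (hy.rb a hT b (v1.mem_nhds v2) o1)
        (hy'.rb a hT' b' (v3.mem_nhds v4) o2)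
      rw [← ha] at d5 d6
      refine ⟨⟨(e, e', insert (V ×ˢ V', δ) C), c1.insert _, forall_mem_insert.2 ⟨⟨v1.prod v3, (hI _ _).2
        ⟨O, d2, d5, fun b b' q1 W q2 O' q3 N => ?_⟩⟩, o3 (mk_mem_prod d3.2 d4.2)⟩⟩, V ×ˢ V', δ, d1,
        ⟨d3.1, d4.1⟩, v5, trivial, mem_insert _ _, subset_insert _ _⟩
      obtain ⟨W1, w1, W2, w2, w3⟩ := mem_nhds_prod_iff.1 q2
      have c3 : Continuous fun p : (Circle → Circle) × (Circle → Circle) × (Circle → Circle) =>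
        (a ^ b' / p.1 / p.2.2 * p.2.1, p.2.1 / p.1) := by fun_prop
      obtain ⟨O1, o1, O2, o2, o3⟩ := mem_nhds_prod_iff.1 (c3.continuousAt (x := (a ^ b, a ^ b', a ^ b'))
        (prod_mem_nhds (d2.mem_nhds (by simpa [div_eq_mul_inv, mul_comm] using q1)) q3))
      obtain ⟨O3, o4, O4, o5, o6⟩ := mem_nhds_prod_iff.1 o2
      obtain ⟨m, L, l1, l2, l3⟩ := d6 b' _ N (hy.rb a hT b w1 o1)
      have w4 : ∀ᶠ w in 𝓝 (T'^[b'] y'), ∀ n ∈ Iio L, T'^[m + n] y' ∈ V' → T'^[m - b' + n] w ∈ V' :=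
        (eventually_all_finite (finite_Iio L)).2 fun n _ => eventually_imp_distrib_left.2 fun k =>
          (hT'.iterate _).continuousAt.eventually_mem (v3.mem_nhds (by
            rwa [← Function.iterate_add_apply, show m - b' + n + b' = m + n by omega]))
      obtain ⟨e, e0, e1, e2, e3, e4, p, p1, p2, p3⟩ := l3 _ (hy'.rb a hT' b' (inter_mem w2 w4)
        (inter_mem o4 o5)) fun e e0 e1 e2 e3 e4 =>
          (o3 (mk_mem_prod e0.2 (o6 (mk_mem_prod e2.2.1 e4.2.2)))).1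
      refine ⟨e, e1, w3 (mk_mem_prod e0.1 e2.1.1), (o3 (mk_mem_prod e0.2 (o6 (mk_mem_prod e2.2.1
        e4.2.2)))).2, L, l1, p, p1, p3.trans (cnt_le fun n hn k => ?_)⟩
      rw [zero_add] at k
      have := e4.1.2 n hn k.1.1
      rw [rs, mem_ofPred_eq, it, ← Function.iterate_add_apply, ← Function.iterate_add_apply,
        add_right_comm, show p + n + e1 = m - b' + n + e3 by omega]
      exact ⟨k.2.1, Function.iterate_add_apply T' _ _ _ ▸ this⟩)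
    ⟨(0, 0, (fun c => (c.1 ×ˢ univ, c.2)) '' C0), h0.image _, forall_mem_image.2 fun c hc =>
      ⟨(h1 c hc).1.prod isOpen_univ, (hI _ _).2 ⟨univ, isOpen_univ, trivial, fun b b' _ W q2 O' q3 N =>
        ⟨b, b', mem_of_mem_nhds q2, mem_of_mem_nhds q3, ((h1 c hc).2 (N + b)).bk fun n hn => by
          rw [rs, mem_ofPred_eq, it, ← Function.iterate_add_apply]; exact ⟨hn, trivial⟩⟩⟩⟩⟩ hW
  exact ⟨z, z1, z2, fun c hc N => (z3 _ ⟨c, hc, rfl⟩ N).sh (a := 0) fun n hn => by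
    rw [rs, mem_ofPred_eq, it] at hn; exact hn.1⟩

lemma many {X : Type*} [TopologicalSpace X] [TopologicalSpace.IsCompletelyMetrizableSpace X] {T : X → X}
    (hT : Continuous T) (hd : Dense {x | RR T x}) {ι : Type*} [Countable ι] {U : ι → Set X}
    (h1 : ∀ i, IsOpen (U i)) (h2 : ∀ i, (U i).Nonempty) :
    ∃ z : ι → X, (∀ i, z i ∈ U i) ∧ RR (fun v i => T (v i)) z := by
  classical
  have it : ∀ {κ : Type _} n (v : κ → X), (fun (v : κ → X) i => T (v i))^[n] v = fun i => T^[n] (v i) :=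
    fun n v => by
      induction n with
      | zero => rfl
      | succ k ih => simp only [Function.iterate_succ_apply', ih]
  rcases isEmpty_or_nonempty ι with h | h
  · exact ⟨h.elim, h.elim, fun V hV => ⟨1, one_pos, fun N => ⟨N, le_rfl, N, le_rfl, by
      rw [show rs _ _ V = univ from eq_univ_of_forall fun n =>
        mem_of_eq_of_mem (s := V) (Subsingleton.elim _ _) (mem_of_mem_nhds hV)]
      simp [cnt]⟩⟩⟩
  obtain ⟨f, hf⟩ := exists_surjective_nat ι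
  obtain ⟨x0, -, h0⟩ := hd.inter_open_nonempty _ (h1 (f 0)) (h2 _)
  let _ := TopologicalSpace.completelyMetrizableMetric X
  have := TopologicalSpace.complete_completelyMetrizableMetric X
  let _ := TopologicalSpace.completelyMetrizableMetric (ℕ → X)
  have := TopologicalSpace.complete_completelyMetrizableMetric (ℕ → X)
  have hS : Continuous fun (v : ℕ → X) i => T (v i) := by fun_prop
  obtain ⟨z, -, z2, -, z3⟩ := LL hS (St := {s : (ℕ → X) × Set (Set (ℕ → X) × ℝ) // RR (fun v i => T (v i))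
    s.1 ∧ s.2.Finite ∧ (∀ c ∈ s.2, IsOpen c.1 ∧ ∀ N, G (rs (fun v i => T (v i)) s.1 c.1) c.2 N) ∧
      ∃ k, ∀ c ∈ s.2, ∀ v ∈ c.1, ∀ w, (∀ i < k, w i = v i) → w ∈ c.1}) (fun s => s.1.1) (fun s => s.1.2)
    (fun n V => ∃ i, ∀ v ∈ V, v i ∈ U (f n)) (fun s => s.2.2.1) (fun s c h => (s.2.2.2.1 c h).1)
    (fun s W hW c hc N => ⟨s, mem_of_mem_nhds hW, rfl, (s.2.2.2.1 c hc).2 N⟩) (by
      rintro ⟨⟨v, C⟩, c1, c2, c3, k, c4⟩ n W hW
      obtain ⟨I, t, t1, t2⟩ := isOpen_pi_iff.1 isOpen_interior v (mem_interior_iff_mem_nhds.2 hW)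
      obtain ⟨j, j1, j2⟩ : ∃ j, k ≤ j ∧ ∀ i ∈ I, i < j := ⟨k + I.sup id + 1, by omega, fun i h => by
        have : i ≤ I.sup id := Finset.le_sup (f := id) h
        omega⟩
      have t3 : IsOpen ((I : Set ℕ).pi t) := isOpen_set_pi I.finite_toSet fun i h => (t1 i h).1
      obtain ⟨x, x1, x2⟩ := hd.inter_open_nonempty _ (h1 (f n)) (h2 _)
      obtain ⟨z, z1, z2, z3⟩ := two hS hT c1 x2 c2 c3 (prod_mem_nhds (t3.mem_nhds fun i h => (t1 i h).2)
        ((h1 _).mem_nhds x1))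
      have z4 := z2.map (S := fun v i => T (v i)) (φ := fun p : (ℕ → X) × X => Function.update p.1 j p.2)
        (by fun_prop) fun p => funext fun i => by by_cases h : i = j <;> simp [h]
      have v1 : IsOpen ((I : Set ℕ).pi t ∩ {w | w j ∈ U (f n)}) :=
        t3.inter ((h1 _).preimage (continuous_apply j))
      have v2 : Function.update z.1 j z.2 ∈ (I : Set ℕ).pi t ∩ {w | w j ∈ U (f n)} := ⟨fun i h => by
        rw [Function.update_of_ne (j2 i h).ne]; exact z1.1 i h, by simpa using z1.2⟩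
      obtain ⟨δ, d1, d2⟩ := z4 _ (v1.mem_nhds v2)
      refine ⟨⟨(_, insert (_, δ) C), z4, c2.insert _, forall_mem_insert.2 ⟨⟨v1, d2⟩, fun c hc =>
        ⟨(c3 c hc).1, fun N => (z3 c hc N).sh (a := 0) fun m hm => c4 c hc _ hm _ fun i h => ?_⟩⟩, j + 1,
        forall_mem_insert.2 ⟨fun v hv w h => ⟨fun i h' => h i ((j2 i h').trans j.lt_succ_self) ▸ hv.1 i h',
          by rw [mem_ofPred_eq, h j j.lt_succ_self]; exact hv.2⟩,
          fun c hc v hv w h => c4 c hc v hv w fun i h' => h i (by omega)⟩⟩, _, δ, d1, v2,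
        fun w h => interior_subset (t2 h.1), ⟨j, fun _ h => h.2⟩, mem_insert _ _, subset_insert _ _⟩
      rw [it, it, add_zero]
      exact congrArg _ (Function.update_of_ne (show i ≠ j by omega) _ _))
    ⟨(fun _ => x0, ∅), RR.map (φ := fun x _ => x) h0 (by fun_prop) fun _ => rfl, finite_empty, by simp,
      0, by simp⟩ univ_mem
  choose V v1 v2 using z3
  choose j v1 using v1
  choose g hg using hf
  exact ⟨_, fun i => by simpa [hg] using v1 (g i) z (v2 _), z2.map (φ := fun v i => v (j (g i))) (by fun_prop)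
    fun _ => rfl⟩

lemma cnt_eq (A : Set ℕ) (m L : ℕ) : cnt A m L = ({n | m ≤ n ∧ n < m + L ∧ n ∈ A}.ncard : ℝ) := by
  classical
  rw [show {n | m ≤ n ∧ n < m + L ∧ n ∈ A} = ((Finset.Ico m (m + L)).filter (· ∈ A) : Finset ℕ) by
    ext; simp [and_assoc], ncard_coe_finset, Finset.card_filter, Finset.sum_Ico_eq_sum_range]
  simp [cnt, indicator]

lemma ps_iff {A : Set ℕ} : Ps A ↔ ∃ δ : ℝ, 0 < δ ∧ ∀ N : ℕ, 1 ≤ N → ∃ m : ℕ,
    δ * (N : ℝ) ≤ ({n | m ≤ n ∧ n < m + N ∧ n ∈ A}.ncard : ℝ) := by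
  have c1 : ∀ m L L', cnt A m (L + L') = cnt A m L + cnt A (m + L) L' := fun m L L' => by
    simp only [cnt, Finset.sum_range_add, add_assoc]
  have c2 : ∀ m L, cnt A m L ≤ L := fun m L => by
    simpa [cnt] using cnt_le (A := A) (B := univ) (m := m) (m' := m) (L := L) fun _ _ _ => trivial
  simp only [← cnt_eq]
  refine ⟨fun ⟨δ, h1, h⟩ => ⟨δ / 2, half_pos h1, fun N hN => ?_⟩, fun ⟨δ, h1, h⟩ =>
    ⟨δ / 2, half_pos h1, fun N => ?_⟩⟩
  · by_contra! k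
    have c3 : ∀ q m, cnt A m (q * N) ≤ q * (δ / 2 * N) := fun q m => by
      induction q with
      | zero => simp [cnt]
      | succ q ih => rw [Nat.succ_mul, c1]; push_cast; linarith [k (m + q * N)]
    obtain ⟨M, hM⟩ := exists_nat_gt (N / (δ / 2))
    obtain ⟨L, l1, m, -, l2⟩ := h M
    have l3 := c1 m (L / N * N) (L % N)
    rw [Nat.div_add_mod'] at l3
    have l4 : ((L / N * N : ℕ) : ℝ) ≤ L := Nat.cast_le.2 (Nat.div_mul_le_self _ _)
    have l5 : ((L % N : ℕ) : ℝ) < N := Nat.cast_lt.2 (Nat.mod_lt _ hN)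
    have l6 : (M : ℝ) ≤ L := Nat.cast_le.2 l1
    rw [div_lt_iff₀ (half_pos h1)] at hM
    rw [Nat.cast_mul] at l4
    nlinarith [c3 (L / N) m, c2 (m + L / N * N) (L % N)]
  · obtain ⟨M, hM⟩ := exists_nat_gt (N / (δ / 2))
    obtain ⟨m, l2⟩ := h (N + (N + M + 1)) (by omega)
    rw [div_lt_iff₀ (half_pos h1)] at hM
    refine ⟨N + M + 1, by omega, m + N, by omega, ?_⟩
    rw [c1] at l2
    push_cast at l2 ⊢
    nlinarith [c2 m N, Nat.cast_nonneg (α := ℝ) N]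

lemma ps_iff' {A : Set ℕ} : Ps A ↔
    0 < limsup (fun N : ℕ => ⨆ m : ℕ, ((A ∩ Icc m (m + N)).ncard : ℝ) / (N + 1)) atTop := by
  have c1 : ∀ m L L', cnt A m (L + L') = cnt A m L + cnt A (m + L) L' := fun m L L' => by
    simp only [cnt, Finset.sum_range_add, add_assoc]
  have c2 : ∀ m L, cnt A m L ≤ L := fun m L => by
    simpa [cnt] using cnt_le (A := A) (B := univ) (m := m) (m' := m) (L := L) fun _ _ _ => trivial
  have c3 : ∀ m N, ((A ∩ Icc m (m + N)).ncard : ℝ) = cnt A m (N + 1) := fun m N => by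
    rw [cnt_eq]; congr 2; ext n; simp [Nat.lt_succ_iff, ← add_assoc, and_comm, and_assoc]
  have c4 : ∀ m N : ℕ, cnt A m (N + 1) / (N + 1) ≤ 1 := fun m N =>
    div_le_one_of_le₀ (by simpa using c2 m (N + 1)) (by positivity)
  have c5 : ∀ N : ℕ, BddAbove (range fun m => cnt A m (N + 1) / (N + 1)) := fun N =>
    ⟨1, forall_mem_range.2 fun m => c4 m N⟩
  simp only [c3]
  refine ⟨fun h => ?_, fun h => ?_⟩
  · obtain ⟨δ, h1, h⟩ := ps_iff.1 h
    refine h1.trans_le (le_limsup_of_frequently_le (.of_forall fun N => ?_)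
      (isBoundedUnder_of ⟨1, fun N => ciSup_le fun m => c4 m N⟩))
    obtain ⟨m, hm⟩ := h (N + 1) (by omega)
    refine le_ciSup_of_le (c5 N) m ?_
    rw [le_div_iff₀ (by positivity), cnt_eq]
    exact_mod_cast hm
  obtain ⟨δ, h1, h⟩ := exists_between h
  refine ⟨δ / 2, half_pos h1, fun N => ?_⟩
  obtain ⟨M, hM⟩ := exists_nat_gt (N / (δ / 2))
  obtain ⟨L, l1, l2⟩ := ((frequently_lt_of_lt_limsup (isCoboundedUnder_le_of_le atTop (x := 0) fun N =>
    Real.iSup_nonneg fun m => div_nonneg (by rw [cnt_eq]; positivity) (by positivity)) h).and_eventually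
    (eventually_ge_atTop (N + N + M))).exists
  obtain ⟨m, l3⟩ := exists_lt_of_lt_ciSup l1
  obtain ⟨L, rfl⟩ := Nat.exists_eq_add_of_le l2
  rw [div_lt_iff₀ (half_pos h1)] at hM
  rw [lt_div_iff₀ (by positivity), show N + N + M + L + 1 = N + (N + M + L + 1) by omega, c1] at l3
  refine ⟨N + M + L + 1, by omega, m + N, by omega, ?_⟩
  push_cast at l3 ⊢
  nlinarith [c2 m N, Nat.cast_nonneg (α := ℝ) N, Nat.cast_nonneg (α := ℝ) L]

lemma sums {X : Type*} [TopologicalSpace X] [TopologicalSpace.IsCompletelyMetrizableSpace X] {T : X → X}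
    (hT : Continuous T) (hd : Dense {x | RR T x}) (r : ℕ) :
    Dense {v : Fin r → X | RR (fun v i => T (v i)) v} := dense_iff_inter_open.2 fun U hU ⟨v, hv⟩ => by
  obtain ⟨t, t1, t2⟩ := isOpen_pi_iff'.1 hU v hv
  obtain ⟨z, z1, z2⟩ := many hT hd (fun i => (t1 i).1) fun i => ⟨_, (t1 i).2⟩
  exact ⟨z, t2 fun i _ => z1 i, z2⟩

end Pool.Agent.H.MP_cd1425_an
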